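import Pool.Agent.S821.GS2
import Pool.Agent.Results.MP_f11a48_ag.HyperellipticSmallestSubtorsor

/-!
# Products of any number of hyperelliptic curves: the periods generate the motivic torsor over all small number fields

`X` is a product of curves `C_1, …, C_N` over `ℚ` of the same genus `g = n / 2` (the torsors of `X` and of `h^1(C_1) ⊕ … ⊕ h^1(C_N)`
determine each other), with period matrices `c_j` and `c = c_1 ⊕ … ⊕ c_N`. Then `Z_X ⊆ Ω^mot_X ⊆ polTorsor`, where `polTorsor`
consists of the isomorphisms which respect the decomposition and the polarisations. The conjecture says `Z_X = Ω^mot_X`, for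
the Zariski closure `Z_X` of the point `c`. A torsor under a group is contained in `Z_X` only if the subtorsor GENERATED by `Z_X`,
that is the smallest subtorsor which contains `c`, is as large. `Product K`: over the field `K` the subtorsor generated by the
period matrix is the whole of `polTorsor`, so that it is equal to `Ω^mot_X`. In other words all equations over `K` which define
subtorsors and hold for the periods, in particular all the de Rham-Betti classes over `K` on all powers of `X`, come from divisors.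

1. (Pairs suffice.) For every `n` there is a degree `d` such that for ANY number `N` of polarised objects of rank `n` and odd weight,
over any field `K` of algebraic numbers: if the polynomial relations of degree at most `d` over `K` between the periods of any one
or two of them are consequences of the polarisations then the smallest `K`-subtorsor which contains the period matrix of the sum
of ALL of them is `polTorsor`.

2. (Almost all products, any number of factors.) Let `f_1, …, f_L ∈ ℚ[X]` be monic of degree `n = 2 g` with `n` distinct real roots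
which are not zero. For every `D` there are `c > 0` and `M` such that for ALL `N`, `T` and all choices `θ` of the polynomials, for all
but `N² M T^(N - c)` of the tuples `(t_1, …, t_N)` of natural numbers `t_j ≤ T` the product of the curves
`y² = f_θ(j)(x) (x - 1 / t_j)` has this property for all number fields `K` of degree at most `D`; and there are `D(T) → ∞`,
`δ(T) → 0` such that for all `N`, and all but `N² δ(T) T^N` of the tuples it holds for all number fields of degree at most `D(T)`.

3. (All products in windows.) Let `f` be as in 2. There is `G0` such that for all `G ≥ G0` and all `D` there is `E` such that for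
all `H` and `t ≥ (H + 2)^E` there is a set `S` of at most `dim GSp_n = n (n + 1) / 2 + 1` integers such that **all** the products of
**any number** of different curves `y² = f(x) (x - 1 / (t - G u))`, `1 ≤ u ≤ H`, `u ∉ S`, have this property for all number fields
of degree at most `D`; `E` does not depend on the number of the factors.

The starting hand-ins `HyperellipticPeriods`, `HyperellipticWindows` of this problem (relations of bounded degree) and
`MP_f11a48_ag.HyperellipticSmallestSubtorsor` treat a fixed number of factors, with constants depending on it in an unspecified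
way. `MP_bf54cf_ag.PairsSuffice` of this run is the theorem on de Rham-Betti classes which follows from the one here by the first
fundamental theorem of invariant theory over `K`. The proof is in `Pool/Agent/S821/GP1` to `GP3`, `GS1`, `GS2`.
-/

set_option autoImplicit false

open Polynomial Matrix Filter

namespace Pool.Agent.Results.MP_77d3f5_ag.AnyNumberOfFactors

open Pool.Agent.Results.MP_f11a48_ag.HyperellipticSmallestSubtorsor (IsSubtorsor IsOmega polB Respects polTorsor branch
  period polDR)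

/-- all relations of degree at most `d` over `K` between the entries of the matrices `c_j` are consequences of the
polarisations -/
def NoRelation {n N : ℕ} (K : Subfield ℂ) (Q c : Fin N → Matrix (Fin n) (Fin n) ℂ) (d : ℕ) : Prop :=
  ∀ P : MvPolynomial (Fin N × Fin n × Fin n) K, P.totalDegree ≤ d →
    MvPolynomial.eval (fun s => c s.1 s.2.1 s.2.2) (MvPolynomial.map (algebraMap K ℂ) P) = 0 →
    ∀ (X : Fin N → Matrix (Fin n) (Fin n) ℂ) (μ : ℂ), μ ≠ 0 → Respects Q X μ →
      MvPolynomial.eval (fun s => X s.1 s.2.1 s.2.2) (MvPolynomial.map (algebraMap K ℂ) P) = 0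

/-- For the product of the curves `y² = f_j(x) (x - z_j)`, `f_j` with the roots `a_j`, `z_j` at place `m_j`, and for all number
fields `K` of degree at most `D`: the smallest `K`-subtorsor which contains the period matrix is the torsor of the
polarisations. -/
def Product {n N : ℕ} (D : ℕ) (a : Fin N → Fin n → ℝ) (f : Fin N → ℚ[X]) (m : Fin N → Fin (n + 1)) (z : Fin N → ℚ) : Prop :=
  (∀ j, StrictMono (branch (a j) (m j) (z j))) ∧
  ∀ K : Subfield ℂ, FiniteDimensional ℚ K → Module.finrank ℚ K ≤ D →
    IsOmega K (Matrix.blockDiagonal fun j => Matrix.of (period (branch (a j) (m j) (z j))))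
      (polTorsor fun j => (polDR n (f j * (X - C (z j)))).map (algebraMap ℚ ℂ))

/-- a diagonal sequence -/
theorem exists_diag (f : ℕ → ℕ → ℝ) (hf : ∀ D, Tendsto (f D) atTop (nhds 0)) :
    ∃ g : ℕ → ℕ, Tendsto g atTop atTop ∧ Tendsto (fun N => f (g N) N) atTop (nhds 0) := by
  classical
  have h1 : ∀ D : ℕ, ∃ M : ℕ, ∀ N ≥ M, |f D N| ≤ 1 / ((D : ℝ) + 1) := by
    intro D
    have h2 := (hf D).abs
    rw [abs_zero] at h2
    have h3 : ∀ᶠ N in atTop, |f D N| < 1 / ((D : ℝ) + 1) := h2.eventually (gt_mem_nhds (by positivity))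
    obtain ⟨M, hM⟩ := eventually_atTop.1 h3
    exact ⟨M, fun N hN => (hM N hN).le⟩
  choose M hM using h1
  let p : ℕ → ℕ → Prop := fun N D => ∀ D' ≤ D, M D' ≤ N
  let g : ℕ → ℕ := fun N => Nat.findGreatest (p N) N
  have hg1 : ∀ D₀ : ℕ, ∃ N₀ : ℕ, ∀ N ≥ N₀, D₀ ≤ g N ∧ p N (g N) := by
    intro D₀
    refine ⟨D₀ + ∑ D' ∈ Finset.range (D₀ + 1), M D', fun N hN => ?_⟩
    have h2 : p N D₀ := by
      intro D' hD'
      have h3 : M D' ≤ ∑ D' ∈ Finset.range (D₀ + 1), M D' :=
        Finset.single_le_sum (f := M) (fun _ _ => Nat.zero_le _) (Finset.mem_range.2 (by omega))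
      omega
    have h4 : D₀ ≤ N := by omega
    exact ⟨Nat.le_findGreatest h4 h2, Nat.findGreatest_spec (P := p N) h4 h2⟩
  have hgt : Tendsto g atTop atTop := by
    rw [tendsto_atTop_atTop]
    intro D₀
    obtain ⟨N₀, hN₀⟩ := hg1 D₀
    exact ⟨N₀, fun N hN => (hN₀ N hN).1⟩
  refine ⟨g, hgt, ?_⟩
  rw [tendsto_zero_iff_abs_tendsto_zero]
  have h5 : Tendsto (fun N => 1 / (((g N : ℕ) : ℝ) + 1)) atTop (nhds 0) :=
    tendsto_one_div_add_atTop_nhds_zero_nat.comp hgt
  refine squeeze_zero' (Eventually.of_forall fun N => abs_nonneg _) ?_ h5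
  obtain ⟨N₀, hN₀⟩ := hg1 0
  filter_upwards [eventually_ge_atTop N₀] with N hN
  exact hM (g N) N ((hN₀ N hN).2 (g N) le_rfl)

/-- **The subtorsor generated by the periods of products of any number of hyperelliptic curves.** (1) relations of bounded
degree between one or two objects suffice; (2) almost all products, the number of the exceptions depends on the number `N` of the
factors only by `N²`; (3) all products of any number of different curves of a window. -/
theorem result :
    -- 1: pairs suffice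
    (∀ n : ℕ, Even n → 0 < n → ∃ d : ℕ, ∀ (N : ℕ) (K : Subfield ℂ) (Q c : Fin N → Matrix (Fin n) (Fin n) ℂ) (l : ℂ),
      0 < N → (∀ x ∈ K, IsAlgebraic ℚ x) → (∀ j a b, Q j a b ∈ K) → Transcendental ℚ l → Respects Q c l →
      (∀ j, NoRelation K (fun _ : Fin 1 => Q j) (fun _ : Fin 1 => c j) d) →
      (∀ i j, i ≠ j → NoRelation K (fun k => Q ((![i, j] : Fin 2 → Fin N) k)) (fun k => c ((![i, j] : Fin 2 → Fin N) k)) d) →
      IsOmega K (Matrix.blockDiagonal c) (polTorsor Q)) ∧
    -- 2: almost all products of any number of hyperelliptic curves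
    (∀ (n L : ℕ), Even n → 0 < n → 0 < L → ∀ (a : Fin L → Fin n → ℝ) (f : Fin L → ℚ[X]) (m : Fin L → Fin (n + 1)),
      (∀ j, (f j).map (algebraMap ℚ ℝ) = ∏ i, (X - C (a j i))) → (∀ j, StrictMono (branch (a j) (m j) 0)) →
      (∀ D : ℕ, ∃ c M : ℝ, 0 < c ∧ ∀ (N T : ℕ) (θ : Fin N → Fin L), 0 < N → 1 ≤ T → ∃ S : Finset (Fin N → ℕ),
        (S.card : ℝ) ≤ N ^ 2 * (M * (T : ℝ) ^ ((N : ℝ) - c)) ∧ ∀ t : Fin N → ℕ, (∀ j, 1 ≤ t j ∧ t j ≤ T) → t ∉ S →
          Product D (fun j => a (θ j)) (fun j => f (θ j)) (fun j => m (θ j)) (fun j => 1 / (t j : ℚ))) ∧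
      ∃ (D : ℕ → ℕ) (δ : ℕ → ℝ), Tendsto D atTop atTop ∧ Tendsto δ atTop (nhds 0) ∧
        ∀ (N T : ℕ) (θ : Fin N → Fin L), 0 < N → 1 ≤ T → ∃ S : Finset (Fin N → ℕ),
          (S.card : ℝ) ≤ N ^ 2 * (δ T * (T : ℝ) ^ N) ∧ ∀ t : Fin N → ℕ, (∀ j, 1 ≤ t j ∧ t j ≤ T) → t ∉ S →
            Product (D T) (fun j => a (θ j)) (fun j => f (θ j)) (fun j => m (θ j)) (fun j => 1 / (t j : ℚ))) ∧
    -- 3: all products of any number of curves of a window
    (∀ n : ℕ, Even n → 0 < n → ∀ (a : Fin n → ℝ) (f : ℚ[X]) (m : Fin (n + 1)),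
      f.map (algebraMap ℚ ℝ) = ∏ i, (X - C (a i)) → StrictMono (branch a m 0) →
      ∃ G0 : ℕ, ∀ G : ℕ, G0 ≤ G → ∀ D : ℕ, ∃ E : ℕ, ∀ H t : ℕ, (H + 2) ^ E ≤ t →
        ∃ S : Finset ℕ, 2 * S.card ≤ n * (n + 1) + 2 ∧
          ∀ (k : ℕ) (u : Fin k → ℕ), 0 < k → Function.Injective u → (∀ j, 1 ≤ u j ∧ u j ≤ H ∧ u j ∉ S) →
            Product D (fun _ => a) (fun _ => f) (fun _ => m) (fun j => 1 / ((t : ℚ) - G * u j))) := by
  refine ⟨?_, ?_, ?_⟩
  · intro n hn hn0
    obtain ⟨d, hd⟩ := Pool.Agent.S821.GP.crit_out2 n hn hn0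
    exact ⟨d, fun N K Q c l hN hK hQ hl hc hr1 hr2 => hd N K Q c l hN hK hQ hl hc hr1 hr2⟩
  · intro n L hn hn0 hL a f m hf h0
    have h2 : ∀ D : ℕ, ∃ c M : ℝ, 0 < c ∧ ∀ (N T : ℕ) (θ : Fin N → Fin L), 0 < N → 1 ≤ T → ∃ S : Finset (Fin N → ℕ),
        (S.card : ℝ) ≤ N ^ 2 * (M * (T : ℝ) ^ ((N : ℝ) - c)) ∧ ∀ t : Fin N → ℕ, (∀ j, 1 ≤ t j ∧ t j ≤ T) → t ∉ S →
          Product D (fun j => a (θ j)) (fun j => f (θ j)) (fun j => m (θ j)) (fun j => 1 / (t j : ℚ)) := by
      intro D
      obtain ⟨c, M, hc, h1⟩ := Pool.Agent.S821.GS.tuples hn hn0 hL hf h0 D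
      refine ⟨c, M, hc, fun N T θ hN hT => ?_⟩
      obtain ⟨S, hS, h2⟩ := h1 N T θ hN hT
      refine ⟨S, hS, fun t ht htS => ?_⟩
      obtain ⟨h3, h4, h5⟩ := h2 t ht htS
      have hcast : ∀ j, ((1 / (t j : ℚ) : ℚ) : ℝ) = 1 / (t j : ℝ) := fun j => by push_cast; rfl
      refine ⟨fun j => ?_, fun K hK hKD => ?_⟩
      · rw [hcast]
        exact h3 j
      · simp only [hcast]
        exact h5 K hK hKD
    refine ⟨h2, ?_⟩
    choose c M hc hcount using h2
    obtain ⟨D, hD, hδ⟩ := exists_diag (fun D T => |M D| * (1 / (T : ℝ) ^ (c D))) (by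
      intro D
      have h3 := (tendsto_rpow_atTop (hc D)).comp tendsto_natCast_atTop_atTop
      have h4 := (h3.inv_tendsto_atTop).const_mul |M D|
      rw [mul_zero] at h4
      refine h4.congr fun T => ?_
      rw [one_div]
      rfl)
    refine ⟨D, _, hD, hδ, fun N T θ hN hT => ?_⟩
    obtain ⟨S, hS, h4⟩ := hcount (D T) N T θ hN hT
    refine ⟨S, hS.trans ?_, h4⟩
    have hT0 : (0 : ℝ) < T := by
      have : 0 < T := hT
      exact_mod_cast this
    refine mul_le_mul_of_nonneg_left ?_ (by positivity)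
    rw [Real.rpow_sub hT0, Real.rpow_natCast]
    calc M (D T) * ((T : ℝ) ^ N / (T : ℝ) ^ (c (D T))) ≤ |M (D T)| * ((T : ℝ) ^ N / (T : ℝ) ^ (c (D T))) := by
          refine mul_le_mul_of_nonneg_right (le_abs_self _) (by positivity)
      _ = |M (D T)| * (1 / (T : ℝ) ^ (c (D T))) * (T : ℝ) ^ N := by ring
  · intro n hn hn0 a f m hf h0
    obtain ⟨G0, h1⟩ := Pool.Agent.S821.GS.windows hn hn0 a f hf m h0
    refine ⟨G0, fun G hG D => ?_⟩
    obtain ⟨E, h2⟩ := h1 G hG D
    refine ⟨E, fun H t ht => ?_⟩
    obtain ⟨h3, S, h4, h5⟩ := h2 H t ht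
    refine ⟨S, h4, fun k u hk hu hu2 => ?_⟩
    obtain ⟨h6, h7⟩ := h5 k u hk hu hu2
    have hcast : ∀ j, ((1 / ((t : ℚ) - G * u j) : ℚ) : ℝ) = 1 / ((t : ℝ) - G * u j) := fun j => by push_cast; rfl
    refine ⟨fun j => ?_, fun K hK hKD => ?_⟩
    · rw [hcast]
      exact (h3 (u j) (hu2 j).2.1).2
    · simp only [hcast]
      exact h7 K hK hKD

end Pool.Agent.Results.MP_77d3f5_ag.AnyNumberOfFactors
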