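import Pool.Agent.U220.BD.Rel

/-!
# Grothendieck's period conjecture in bounded degree for almost all fibres of families with big monodromy, over all number fields

Let `h_i`, `1 ≤ i ≤ k`, be families of G-functions over `ℚ` (with the conditions of Siegel and Galochkin, regular singular
with rational exponents at `0`) and let `P_i(x)` be square matrices whose entries are polynomials with arbitrary complex
coefficients in `log x` and in the functions `h_{i,l}(x)`: the period matrices (rows: Betti, columns: de Rham) of the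
cohomology of families `X_{i,x}` of varieties over an open part of the line, near any rational point, which
may be a point of degeneration (with unipotent local monodromy). Let `Gal(P_i)` be the group of the matrices `g` such that
`P_i` and `g P_i` satisfy the same polynomial relations over `ℂ(x)`: if `P_i` is a fundamental matrix of the Gauss-Manin system
this is its differential Galois group, the Zariski closure of the monodromy group. Let `M_0` be any object over a number
field, for example the motive of a fixed variety, with period matrix `C₀` (any complex matrix), and let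
`c = C₀ ⊕ ⨁_i P_i(1 / t_i)` be the period matrix of the sum of `M_0` and of the fibres at `x_i = 1 / t_i`.

The conjecture says that the Zariski closure `Z_X` of the period point `c` is the torsor `Ω^mot` of the
isomorphisms which respect all algebraic cycles (with `λ = 2πi` as an additional coordinate, the period of `ℚ(-1)`). We prove
that for almost all fibres of families with big monodromy `Z_X` and `Ω^mot` agree up to any given degree: all
polynomials of degree at most `d` over number fields of degree at most `D` which vanish at `c` vanish on `Ω^mot`.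

**Theorem.** Let `D` and `d` be natural numbers. For almost all tuples of integers `t` (all but
`C N^(k-1) ∑_i (1 + N / (x_i + N)^c)` of the tuples in the box `∏_i (x_i, x_i + N]`, where `c > 0` and `C` depend
only on `D`, `d`, the `h_i`, `k`, the ranks and the degrees of the `P_i` as polynomials) the following holds for **all number
fields** `K ⊂ ℂ` of degree at most `D` **at once** and all polynomials `F` over `K` of degree at most `d` in the entries of the
matrices with `F(c) = 0` (there is no condition on the size of the coefficients).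

1. `F` vanishes at `C₀ ⊕ ⨁ g_i P_i(1 / t_i)` for all `g_i` in the group generated by all unipotent one-parameter groups
   in `Gal(P_i)`. Here the families are arbitrary, they can be mixed. (By theorems of Deligne and André the
   connected component of the monodromy group of a family of mixed motives is an extension of a semisimple by a unipotent
   group, and so it is equal to the group generated by its unipotent elements. This is not used.)
2. (Relative case.) Let `Gal(P_i)` contain, for all `i`, the group `special(B_i)` of the matrices of determinant `1` which respect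
   a form `B_i`, where `B_i` is alternating and nondegenerate, or symmetric and nondegenerate of rank `≠ 2`, or zero:
   the monodromy group is Zariski dense in `Sp`, `SO`, `O`, `SL` or bigger. By a theorem of Deligne this holds for the
   vanishing cohomology of the fibres of all Lefschetz pencils with infinite monodromy group. If the matrices
   `Z_i = P_i(1 / t_i)` are invertible and respect polarisations, `Z_i Q_i Z_i^t = μ_i B_i`, then `F` vanishes at
   `C₀ ⊕ ⨁ Y_i` for all matrices `Y_i` with `Y_i Q_i Y_i^t = μ_i B_i` and `det Y_i = det Z_i`. So all relations over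
   the field of the periods of `M_0` of this kind are consequences of the polarisations and of the determinants.
3. (The absolute case: `Z_X = Ω^mot` up to degree `d`.) Let moreover `M_0 = ℚ(-1)`, `C₀ = 2πi`, let the forms `B_i`, `Q_i` be over
   `K`, and let `c` be a point of the torsor `Ω` of the isomorphisms `z ⊕ ⨁ X_i`, `z ≠ 0`, with `X_i Q_i X_i^t = z^(w_i) B_i` and
   `det X_i = δ_i z^(m_i)`, `δ_i ∈ K` (the determinant is superfluous if `B_i` is alternating). Then `F` vanishes on
   the whole torsor `Ω`. As `Ω^mot ⊆ Ω` (up to the embedding by the coordinate `λ`; the polarisations and the determinants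
   are given by algebraic cycles for the cohomology groups in question, or, if this is not known, one obtains the statement
   for the torsor given by these classes), `F` vanishes on `Ω^mot`.

For example this applies to the primitive cohomology of K3 surfaces and of hypersurfaces of even dimension
(`SO`), of curves and of hypersurfaces of odd dimension (`Sp`), to the eigenspaces of cyclic coverings (`SL`), and to
products of fibres of `k` different families of this kind.

Moreover there are functions `D(N) → ∞` and `δ(N) → 0` such that for all but `δ(N) N^k` tuples `t` in `[1, N]^k` all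
this is true for all number fields of degree at most `D(N)` and all polynomials of degree at most `D(N)`.

Proof. By a theorem of helper120 (`Pool.Agent.Y120.R.gx`), outside of the exceptional set all relations of degree
at most `d D^D` over `ℚ` of the period matrix `c` are satisfied by `g c` for `g ∈ 1 × ∏_i Gal(P_i)`. By the descent of
relations along polynomial curves of the library (`Pool.Agent.Y123.GN.Rl_all`: the norm to `ℚ` of a relation over the Galois
closure of `K`) the relations of degree `d` over `K` are satisfied by `g c`, if the `g_i` are products of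
unipotent elements. The groups `Sp`, `SL` and `SO` in dimension `≠ 2` are generated by unipotent elements and act
transitively on the matrices in 2. In the absolute case it follows by automorphisms of `ℂ` over `K` that `F` vanishes at
all points of `Ω` for which `z` is transcendental; through every other point there is a curve
`(u^L z, u^(a_i) X_i)` in `Ω` (the weights satisfy `n_i w_i = 2 m_i` since `π` is transcendental).
-/

set_option autoImplicit false

open PowerSeries Filter
open scoped commutatorElement Matrix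

namespace Pool.Agent.Results.MP_77d3f5_ag.BigMonodromyRelations

/-- an integer polynomial as a power series with rational coefficients -/
noncomputable def toQ (P : Polynomial ℤ) : PowerSeries ℚ := ((P.map (Int.castRingHom ℚ) : Polynomial ℚ) : PowerSeries ℚ)

/-- the power series `P(u^e)` -/
noncomputable def atPow (e : ℕ) (P : Polynomial ℤ) : PowerSeries ℂ :=
  ((Polynomial.expand ℂ e (P.map (Int.castRingHom ℂ)) : Polynomial ℂ) : PowerSeries ℂ)

/-- the matrices `G_s` over `ℤ[x]` with `T^s y^(s) = G_s y` for all solutions `y` of `T y' = A y` -/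
noncomputable def iter {r : ℕ} (T : Polynomial ℤ) (A : Fin r → Fin r → Polynomial ℤ) : ℕ → Fin r → Fin r → Polynomial ℤ
  | 0 => fun i j => if i = j then 1 else 0
  | s + 1 => fun i j => T * Polynomial.derivative (iter T A s i j) + ∑ l, iter T A s i l * A l j -
      (s : Polynomial ℤ) * (Polynomial.derivative T * iter T A s i j)

/-- The system `T y' = A y` has a fundamental matrix of solutions of the form `u^(-M) ∑_n Φ_n(u) (log u)^n` with
`u^e = x` and convergent power series `Φ_n`: the point `0` is regular or a regular singularity with rational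
exponents. -/
def QuasiUnipotent {r : ℕ} (T : Polynomial ℤ) (A : Fin r → Fin r → Polynomial ℤ) : Prop :=
  ∃ (e M : ℕ) (K : ℝ) (Φ : Matrix (Fin r) (Fin r) (Polynomial (PowerSeries ℂ))), 1 ≤ e ∧ Φ.det ≠ 0 ∧
    (∀ i j n m, ‖coeff m ((Φ i j).coeff n)‖ ≤ K ^ (m + 1)) ∧
    ∀ i j n, atPow e T * (X * PowerSeries.derivative ℂ ((Φ i j).coeff n) +
        ((n : PowerSeries ℂ) + 1) * (Φ i j).coeff (n + 1) - (M : PowerSeries ℂ) * (Φ i j).coeff n) =
      (e : PowerSeries ℂ) * X ^ e * ∑ l, atPow e (A i l) * (Φ l j).coeff n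

/-- `h_1, ..., h_r` are G-functions with rational coefficients which solve the differential system `T y' = A y`, with
the conditions of Siegel and Galochkin, and `0` is a regular point or a regular singularity with rational exponents of
the system. -/
structure GFamily {r : ℕ} (T : Polynomial ℤ) (A : Fin r → Fin r → Polynomial ℤ) (h : Fin r → PowerSeries ℚ) : Prop where
  /-- the denominator is not zero -/
  T_ne : T ≠ 0
  /-- the differential equations -/
  ode : ∀ i, toQ T * PowerSeries.derivative ℚ (h i) = ∑ j, toQ (A i j) * h j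
  /-- the coefficients have geometric growth -/
  size : ∃ C : ℝ, ∀ i m, |((coeff m (h i) : ℚ) : ℝ)| ≤ C ^ (m + 1)
  /-- the common denominators of the coefficients have geometric growth -/
  den : ∃ C : ℝ, ∀ m : ℕ, ∃ d : ℕ, 0 < d ∧ (d : ℝ) ≤ C ^ (m + 1) ∧ ∀ i, ∀ j ≤ m, ∃ a : ℤ, (d : ℚ) * coeff j (h i) = a
  /-- Galochkin's condition: the common denominators of the matrices `G_s / s!` have geometric growth -/
  galochkin : ∃ C : ℝ, ∀ m : ℕ, ∃ d : ℕ, 0 < d ∧ (d : ℝ) ≤ C ^ (m + 1) ∧ ∀ s ≤ m, ∀ i j,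
    ∃ H : Polynomial ℤ, (d : Polynomial ℤ) * iter T A s i j = (s.factorial : Polynomial ℤ) * H
  /-- the local exponents at `0` are rational and the singularity is regular -/
  regular : QuasiUnipotent T A

theorem iter_eq {r : ℕ} (T : Polynomial ℤ) (A : Fin r → Fin r → Polynomial ℤ) (s : ℕ) :
    iter T A s = Pool.Agent.Y120.GH.itm T A s := by
  induction s with
  | zero => rfl
  | succ s ih =>
    funext i j
    rw [iter, Pool.Agent.Y120.GH.itm, ih]

theorem qu_eq {r : ℕ} {T : Polynomial ℤ} {A : Fin r → Fin r → Polynomial ℤ} (h : QuasiUnipotent T A) :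
    Pool.Agent.Y120.GH.QU0 T A := by
  obtain ⟨e, M, K, Φ, he, hdet, hc, heq⟩ := h
  have he0 : e ≠ 0 := by omega
  refine ⟨e, he0, M, K, Φ, hc, fun i j n => ?_, hdet⟩
  have h1 := heq i j n
  simp only [atPow] at h1
  rw [Pool.Agent.Y120.GH.expand_poly he0]
  simp only [Pool.Agent.Y120.GH.expand_poly he0]
  exact h1

theorem fam {r : ℕ} {T : Polynomial ℤ} {A : Fin r → Fin r → Polynomial ℤ} {h : Fin r → PowerSeries ℚ}
    (hG : GFamily T A h) (δ : ℕ) : Pool.Agent.Y120.R.Fam δ h :=
  ⟨hG.size, Pool.Agent.Y120.GH.family_main hG.T_ne hG.ode hG.size hG.den (by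
    obtain ⟨C, hC⟩ := hG.galochkin
    refine ⟨C, fun m => ?_⟩
    obtain ⟨d, h1, h2, h3⟩ := hC m
    refine ⟨d, h1, h2, fun s hs i' j' => ?_⟩
    rw [← iter_eq]
    exact h3 s hs i' j') (qu_eq hG.regular) δ⟩

section family
variable {r n : ℕ}

/-- The period matrix at `x = 1 / s`: the entries are the polynomials `P a b` in `log s` and in the `h_l(1 / s)`. -/
noncomputable def perMat (h : Fin r → PowerSeries ℚ) (P : Fin n → Fin n → MvPolynomial (Option (Fin r)) ℂ) (s : ℝ) :
    Matrix (Fin n) (Fin n) ℂ :=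
  Matrix.of fun a b => MvPolynomial.aeval (fun o : Option (Fin r) => o.elim ((Real.log s : ℝ) : ℂ)
    fun l => ((∑' m : ℕ, ((coeff m (h l) : ℚ) : ℝ) * (1 / s) ^ m : ℝ) : ℂ)) (P a b)

/-- the value at `x = 1 / s` and at the matrix `Z` of a polynomial in the entries of a matrix over `ℂ[x]` -/
noncomputable def relAt (R : MvPolynomial (Fin n × Fin n) (Polynomial ℂ)) (s : ℝ) (Z : Matrix (Fin n) (Fin n) ℂ) : ℂ :=
  MvPolynomial.eval₂ (Polynomial.evalRingHom (1 / (s : ℂ))) (fun v => Z v.1 v.2) R

/-- `g P(x)` satisfies all polynomial relations over `ℂ[x]` which `P(x)` satisfies. -/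
def Preserves (h : Fin r → PowerSeries ℚ) (P : Fin n → Fin n → MvPolynomial (Option (Fin r)) ℂ)
    (g : Matrix (Fin n) (Fin n) ℂ) : Prop :=
  ∀ R : MvPolynomial (Fin n × Fin n) (Polynomial ℂ), (∀ᶠ s : ℝ in Filter.atTop, relAt R s (perMat h P s) = 0) →
    ∀ᶠ s : ℝ in Filter.atTop, relAt R s (g * perMat h P s) = 0

/-- The group of the matrices `g` such that `g` and `g⁻¹` preserve the relations. If `P` is a fundamental matrix of a linear
differential system over `ℂ(x)` this is its differential Galois group. -/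
noncomputable def Gal (h : Fin r → PowerSeries ℚ) (P : Fin n → Fin n → MvPolynomial (Option (Fin r)) ℂ) :
    Subgroup (Matrix.GeneralLinearGroup (Fin n) ℂ) where
  carrier := {g | Preserves h P (g : Matrix (Fin n) (Fin n) ℂ) ∧
    Preserves h P ((g⁻¹ : Matrix.GeneralLinearGroup (Fin n) ℂ) : Matrix (Fin n) (Fin n) ℂ)}
  mul_mem' := fun hg hg' => (Pool.Agent.Y123.GN.Gs h P).mul_mem' hg hg'
  one_mem' := (Pool.Agent.Y123.GN.Gs h P).one_mem'
  inv_mem' := fun hg => (Pool.Agent.Y123.GN.Gs h P).inv_mem' hg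

theorem gal_eq (h : Fin r → PowerSeries ℚ) (P : Fin n → Fin n → MvPolynomial (Option (Fin r)) ℂ) :
    Gal h P = Pool.Agent.Y123.GN.Gs h P := rfl

/-- the nilpotent matrices `N` with `exp (t N) ∈ H` for all `t` -/
def nilpotents (H : Subgroup (Matrix.GeneralLinearGroup (Fin n) ℂ)) : Set (Matrix (Fin n) (Fin n) ℂ) :=
  {N | IsNilpotent N ∧ ∀ t : ℂ, ∃ u ∈ H, (u : Matrix (Fin n) (Fin n) ℂ) = IsNilpotent.exp (t • N)}

/-- the subgroup generated by all unipotent one-parameter groups in `H` -/
def unipotents (H : Subgroup (Matrix.GeneralLinearGroup (Fin n) ℂ)) : Subgroup (Matrix.GeneralLinearGroup (Fin n) ℂ) :=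
  Subgroup.closure {u | ∃ N ∈ nilpotents H, ∃ t : ℂ, (u : Matrix (Fin n) (Fin n) ℂ) = IsNilpotent.exp (t • N)}

/-- the matrices of determinant `1` which respect the form `B`; the special linear group for `B = 0` -/
def special (B : Matrix (Fin n) (Fin n) ℂ) : Subgroup (Matrix.GeneralLinearGroup (Fin n) ℂ) where
  carrier := {g | (g : Matrix (Fin n) (Fin n) ℂ).det = 1 ∧
    (g : Matrix (Fin n) (Fin n) ℂ) * B * (g : Matrix (Fin n) (Fin n) ℂ)ᵀ = B}
  mul_mem' := fun hg hg' => (Pool.Agent.Y123.GN.GB B).mul_mem' hg hg'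
  one_mem' := (Pool.Agent.Y123.GN.GB B).one_mem'
  inv_mem' := fun hg => (Pool.Agent.Y123.GN.GB B).inv_mem' hg

/-- nondegenerate alternating forms -/
def Symplectic (B : Matrix (Fin n) (Fin n) ℂ) : Prop := IsUnit B ∧ Bᵀ = -B

/-- The form is zero, or nondegenerate and alternating, or nondegenerate and symmetric of rank different from `2`. -/
def Classical (B : Matrix (Fin n) (Fin n) ℂ) : Prop := B = 0 ∨ Symplectic B ∨ (IsUnit B ∧ Bᵀ = B ∧ n ≠ 2)

end family

section
variable {k r : ℕ} {n : Fin k → ℕ} {ρ : Fin k → ℕ}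

/-- the value at the matrix `x` of a polynomial over `K` in the entries of a matrix -/
noncomputable def value {K : Subfield ℂ} {B : Type} (F : MvPolynomial (B × B) K) (x : Matrix B B ℂ) : ℂ :=
  MvPolynomial.eval (fun b => x b.1 b.2) (MvPolynomial.map (algebraMap K ℂ) F)

/-- the block matrix `x ⊕ X_1 ⊕ … ⊕ X_k` -/
noncomputable def total (x : Matrix (Fin r) (Fin r) ℂ) (X : ∀ i, Matrix (Fin (n i)) (Fin (n i)) ℂ) :
    Matrix (Fin r ⊕ Σ i, Fin (n i)) (Fin r ⊕ Σ i, Fin (n i)) ℂ :=
  Matrix.fromBlocks x 0 0 (Matrix.blockDiagonal' X)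

/-- the isomorphisms `X_i` respect the polarisations `Q_i` (de Rham) and `B_i` (Betti) up to the factors `μ_i` -/
def Respects (B Q : ∀ i, Matrix (Fin (n i)) (Fin (n i)) ℂ) (μ : Fin k → ℂ)
    (X : ∀ i, Matrix (Fin (n i)) (Fin (n i)) ℂ) : Prop :=
  (∀ i, μ i ≠ 0) ∧ ∀ i, X i * Q i * (X i)ᵀ = μ i • B i

/-- The isomorphisms `z ⊕ … ⊕ z ⊕ X_1 ⊕ … ⊕ X_k` of an `r`-fold sum of the object `ℚ(-1)` and of the `M_i` which respect the
polarisations, with values in `ℚ(-w_i)`, and the identifications of `det M_i` with `ℚ(-m_i)` up to a twist. -/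
def torsorOf (r : ℕ) (B Q : ∀ i, Matrix (Fin (n i)) (Fin (n i)) ℂ) (w m : Fin k → ℤ) (δ : Fin k → ℂ) :
    Set (Matrix (Fin r ⊕ Σ i, Fin (n i)) (Fin r ⊕ Σ i, Fin (n i)) ℂ) :=
  {y | ∃ z : ℂ, z ≠ 0 ∧ ∃ X : ∀ i, Matrix (Fin (n i)) (Fin (n i)) ℂ, y = total (z • 1) X ∧
    ∀ i, X i * Q i * (X i)ᵀ = z ^ (w i) • B i ∧ (Symplectic (B i) ∨ (X i).det = δ i * z ^ (m i))}

/-- The conclusion for one tuple; `Z i` is the period matrix of the fibre of the `i`-th family. -/
def Good (D d : ℕ) (C₀ : Matrix (Fin r) (Fin r) ℂ) (h : ∀ i, Fin (ρ i) → PowerSeries ℚ)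
    (P : ∀ i, Fin (n i) → Fin (n i) → MvPolynomial (Option (Fin (ρ i))) ℂ)
    (Z : ∀ i, Matrix (Fin (n i)) (Fin (n i)) ℂ) : Prop :=
  ∀ K : Subfield ℂ, FiniteDimensional ℚ K → Module.finrank ℚ K ≤ D →
  ∀ F : MvPolynomial ((Fin r ⊕ Σ i, Fin (n i)) × (Fin r ⊕ Σ i, Fin (n i))) K, F.totalDegree ≤ d →
    value F (total C₀ Z) = 0 →
  -- 1: the relations are inherited under unipotent monodromy
  (∀ g : ∀ i, Matrix.GeneralLinearGroup (Fin (n i)) ℂ, (∀ i, g i ∈ unipotents (Gal (h i) (P i))) →
    value F (total C₀ fun i => (g i : Matrix (Fin (n i)) (Fin (n i)) ℂ) * Z i) = 0) ∧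
  ((∀ i, IsUnit (Z i)) →
  ∀ B : ∀ i, Matrix (Fin (n i)) (Fin (n i)) ℂ, (∀ i, Classical (B i)) → (∀ i, special (B i) ≤ Gal (h i) (P i)) →
  -- 2: big monodromy, relative case
  (∀ (Q : ∀ i, Matrix (Fin (n i)) (Fin (n i)) ℂ) (μ : Fin k → ℂ) (Y : ∀ i, Matrix (Fin (n i)) (Fin (n i)) ℂ),
    Respects B Q μ Z → Respects B Q μ Y → (∀ i, Symplectic (B i) ∨ (Z i).det = (Y i).det) →
      value F (total C₀ Y) = 0) ∧
  -- 3: big monodromy, absolute case
  (0 < r → C₀ = (2 * Real.pi * Complex.I : ℂ) • 1 →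
    ∀ (Q : ∀ i, Matrix (Fin (n i)) (Fin (n i)) ℂ) (w m : Fin k → ℤ) (δ : Fin k → ℂ),
      (∀ i a b, B i a b ∈ K) → (∀ i a b, Q i a b ∈ K) → (∀ i, δ i ∈ K) →
      total C₀ Z ∈ torsorOf r B Q w m δ → ∀ y ∈ torsorOf r B Q w m δ, value F y = 0))

theorem good_of {D d : ℕ} {C₀ : Matrix (Fin r) (Fin r) ℂ} {h : ∀ i, Fin (ρ i) → PowerSeries ℚ}
    {P : ∀ i, Fin (n i) → Fin (n i) → MvPolynomial (Option (Fin (ρ i))) ℂ} {t : Fin k → ℕ}
    (hg : Pool.Agent.U220.BD.RelG (d * D ^ D) C₀ h P t) : Good D d C₀ h P fun i => perMat (h i) (P i) (t i : ℝ) := by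
  intro K hKf hKD F hFd hF0
  have hKalg : ∀ x ∈ K, IsAlgebraic ℚ x := by
    intro x hx
    have : NumberField K := { to_charZero := inferInstance, to_finiteDimensional := hKf }
    have h6 : IsAlgebraic ℚ (⟨x, hx⟩ : K) := Algebra.IsAlgebraic.isAlgebraic _
    exact h6.algebraMap (A := ℂ)
  have hFc : ∀ m, (MvPolynomial.map (algebraMap K ℂ) F).coeff m ∈ K := by
    intro m
    rw [MvPolynomial.coeff_map]
    exact (F.coeff m).2
  have hFd' : (MvPolynomial.map (algebraMap K ℂ) F).totalDegree ≤ d := by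
    refine le_trans (Finset.sup_mono ?_) hFd
    intro m hm
    rw [MvPolynomial.mem_support_iff] at hm ⊢
    rw [MvPolynomial.coeff_map] at hm
    intro h
    exact hm (by rw [h, map_zero])
  set Z : ∀ i, Matrix (Fin (n i)) (Fin (n i)) ℂ := fun i => perMat (h i) (P i) (t i : ℝ) with hZ
  have h1 : ∀ g : ∀ i, Matrix.GeneralLinearGroup (Fin (n i)) ℂ, (∀ i, g i ∈ unipotents (Gal (h i) (P i))) →
      value F (total C₀ fun i => (g i : Matrix (Fin (n i)) (Fin (n i)) ℂ) * Z i) = 0 := by
    intro g hgU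
    exact Pool.Agent.U220.BD.rel_unip hg hKf hKD hgU _ hFc hFd' hF0
  refine ⟨h1, fun hunit B hB hBG => ?_⟩
  have h2 : ∀ (Q : ∀ i, Matrix (Fin (n i)) (Fin (n i)) ℂ) (μ : Fin k → ℂ) (Y : ∀ i, Matrix (Fin (n i)) (Fin (n i)) ℂ),
    Respects B Q μ Z → Respects B Q μ Y → (∀ i, Symplectic (B i) ∨ (Z i).det = (Y i).det) →
      value F (total C₀ Y) = 0 := by
    intro Q μ Y hX hY hd
    choose g hgB hgX using fun i => Pool.Agent.Y123.GN.quot_GB (hX.1 i) (hunit i) (hX.2 i) (hY.2 i) (hd i)
    have h3 := h1 g fun i => Pool.Agent.Y123.GN.Ug_mono (hBG i) (by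
      have h5 := Pool.Agent.Y123.GN.cl_perf (hB i) (hgB i)
      exact (Subgroup.commutator_le.2 fun a ha b hb =>
        Subgroup.mul_mem _ (Subgroup.mul_mem _ (Subgroup.mul_mem _ ha hb) (Subgroup.inv_mem _ ha)) (Subgroup.inv_mem _ hb)) h5)
    have h4 : (fun i => (g i : Matrix (Fin (n i)) (Fin (n i)) ℂ) * Z i) = Y := by
      funext i
      exact hgX i
    rw [h4] at h3
    exact h3
  refine ⟨h2, ?_⟩
  intro hr hC₀ Q w m δ hBK hQK hδK hc y hy
  have hne : Nonempty (Fin r) := ⟨⟨0, hr⟩⟩
  subst hC₀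
  obtain ⟨z₀, hz₀, X₀, hX₀, hc₀⟩ := hc
  obtain ⟨e1, e2⟩ := Pool.Agent.Y123.GN.EG_inj hX₀
  have e3 : (2 * Real.pi * Complex.I : ℂ) = z₀ := Pool.Agent.Y123.GN.smul_one_inj e1
  subst e3
  subst e2
  obtain ⟨z, hz, Y, rfl, hY⟩ := hy
  refine Pool.Agent.U220.BD.absolute_rel (B₀ := Fin r) (n := n) hKalg hBK hQK hδK hB hc₀ hFc ?_ hz hY
  intro Y' hY'
  refine h2 Q (fun i => (2 * Real.pi * Complex.I : ℂ) ^ (w i)) Y' ⟨fun i => zpow_ne_zero _ hz₀, fun i => (hc₀ i).1⟩
    ⟨fun i => zpow_ne_zero _ hz₀, fun i => (hY' i).1⟩ fun i => ?_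
  rcases (hc₀ i).2 with h4 | h4
  · exact Or.inl h4
  · rcases (hY' i).2 with h5 | h5
    · exact Or.inl h5
    · exact Or.inr (h4.trans h5.symm)

end

/-- **The theorem.** -/
theorem result (k e r : ℕ) (ρ n : Fin k → ℕ) (T : Fin k → Polynomial ℤ)
    (A : ∀ i, Fin (ρ i) → Fin (ρ i) → Polynomial ℤ) (h : ∀ i, Fin (ρ i) → PowerSeries ℚ)
    (hG : ∀ i, GFamily (T i) (A i) (h i)) :
    -- number fields of degree at most `D` and relations of degree at most `d`
    (∀ D d : ℕ, ∃ c C : ℝ, 0 < c ∧ 0 ≤ C ∧ ∀ P : ∀ i, Fin (n i) → Fin (n i) → MvPolynomial (Option (Fin (ρ i))) ℂ,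
      (∀ i a b, (P i a b).totalDegree ≤ e) → ∀ C₀ : Matrix (Fin r) (Fin r) ℂ, ∀ (x : Fin k → ℕ) (N : ℕ), 1 ≤ N →
      (({t : Fin k → ℕ | (∀ i, x i < t i ∧ t i ≤ x i + N) ∧
        ¬ Good D d C₀ h P fun i => perMat (h i) (P i) (t i : ℝ)}.ncard : ℕ) : ℝ) ≤
        C * (N : ℝ) ^ (k - 1) * ∑ i, (1 + N / ((x i : ℝ) + N) ^ c)) ∧
    -- degrees at most `D N`, which tends to infinity
    (∃ (D : ℕ → ℕ) (δ : ℕ → ℝ), Tendsto D atTop atTop ∧ Tendsto δ atTop (nhds 0) ∧
      ∀ P : ∀ i, Fin (n i) → Fin (n i) → MvPolynomial (Option (Fin (ρ i))) ℂ,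
      (∀ i a b, (P i a b).totalDegree ≤ e) → ∀ C₀ : Matrix (Fin r) (Fin r) ℂ, ∀ N : ℕ, 1 ≤ N →
      (({t : Fin k → ℕ | (∀ i, 1 ≤ t i ∧ t i ≤ N) ∧
        ¬ Good (D N) (D N) C₀ h P fun i => perMat (h i) (P i) (t i : ℝ)}.ncard : ℕ) : ℝ) ≤ δ N * (N : ℝ) ^ k) := by
  classical
  have hmain : ∀ D d : ℕ, ∃ c C : ℝ, 0 < c ∧ 0 ≤ C ∧ ∀ P : ∀ i, Fin (n i) → Fin (n i) → MvPolynomial (Option (Fin (ρ i))) ℂ,
      (∀ i a b, (P i a b).totalDegree ≤ e) → ∀ C₀ : Matrix (Fin r) (Fin r) ℂ, ∀ (x : Fin k → ℕ) (N : ℕ), 1 ≤ N →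
      (({t : Fin k → ℕ | (∀ i, x i < t i ∧ t i ≤ x i + N) ∧
        ¬ Good D d C₀ h P fun i => perMat (h i) (P i) (t i : ℝ)}.ncard : ℕ) : ℝ) ≤
        C * (N : ℝ) ^ (k - 1) * ∑ i, (1 + N / ((x i : ℝ) + N) ^ c) := by
    intro D d
    obtain ⟨c, C, hc, hC, hmain⟩ := Pool.Agent.U220.BD.rel_main k (d * D ^ D) e r ρ n h fun i δ => fam (hG i) δ
    refine ⟨c, C, hc, hC, ?_⟩
    intro P hP C₀ x N hN
    set E := {t : Fin k → ℕ | (∀ i, x i < t i ∧ t i ≤ x i + N) ∧
        ¬ Good D d C₀ h P fun i => perMat (h i) (P i) (t i : ℝ)} with hE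
    have hfin : E.Finite := by
      refine (Set.finite_Iic (fun i : Fin k => x i + N)).subset ?_
      intro t ht i
      exact (ht.1 i).2
    rw [Set.ncard_eq_toFinset_card E hfin]
    refine hmain P hP C₀ x N hN _ fun t ht => ?_
    have ht' : t ∈ E := hfin.mem_toFinset.1 ht
    exact ⟨ht'.1, fun hgood => ht'.2 (good_of hgood)⟩
  refine ⟨hmain, ?_⟩
  choose c C hc hC hcount using fun D => hmain D D
  obtain ⟨D, hD, hδ⟩ := Pool.Agent.Y123.GN.diag_seq
    (fun D N => C D * k * (1 / (N : ℝ) + 1 / (N : ℝ) ^ (c D))) (by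
      intro D
      have h1 : Tendsto (fun N : ℕ => (1 : ℝ) / (N : ℝ)) atTop (nhds 0) := tendsto_one_div_atTop_nhds_zero_nat
      have h2 : Tendsto (fun N : ℕ => (1 : ℝ) / (N : ℝ) ^ (c D)) atTop (nhds 0) := by
        have h3 := (tendsto_rpow_atTop (hc D)).comp tendsto_natCast_atTop_atTop
        have h4 := h3.inv_tendsto_atTop
        refine h4.congr fun N => ?_
        rw [one_div]
        rfl
      have h5 := (h1.add h2).const_mul (C D * k)
      rw [add_zero, mul_zero] at h5
      exact h5)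
  refine ⟨D, _, hD, hδ, ?_⟩
  intro P hP C₀ N hN
  have h1 := hcount (D N) P hP C₀ (fun _ => 0) N hN
  have h2 : {t : Fin k → ℕ | (∀ i, 0 < t i ∧ t i ≤ 0 + N) ∧
      ¬ Good (D N) (D N) C₀ h P fun i => perMat (h i) (P i) (t i : ℝ)} = {t : Fin k → ℕ | (∀ i, 1 ≤ t i ∧ t i ≤ N) ∧
      ¬ Good (D N) (D N) C₀ h P fun i => perMat (h i) (P i) (t i : ℝ)} := by
    ext t
    simp only [Set.mem_setOf_eq, zero_add, Nat.lt_iff_add_one_le]
  rw [h2] at h1
  refine h1.trans (le_of_eq ?_)
  have hN0 : (N : ℝ) ≠ 0 := by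
    have : N ≠ 0 := by omega
    exact_mod_cast this
  rw [Finset.sum_const, Finset.card_univ, Fintype.card_fin, nsmul_eq_mul, Nat.cast_zero, zero_add]
  rcases Nat.eq_zero_or_pos k with hk | hk
  · subst hk
    simp
  · obtain ⟨q, rfl⟩ : ∃ q, k = q + 1 := ⟨k - 1, by omega⟩
    have h3 : (N : ℝ) ^ (q + 1) = (N : ℝ) ^ q * N := pow_succ _ _
    rw [Nat.add_sub_cancel, h3]
    have h4 : (1 : ℝ) + N / (N : ℝ) ^ (c (D N)) = N * (1 / (N : ℝ) + 1 / (N : ℝ) ^ (c (D N))) := by
      rw [mul_add, mul_one_div_cancel hN0, mul_one_div]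
    rw [h4]
    ring

end Pool.Agent.Results.MP_77d3f5_ag.BigMonodromyRelations
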