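import Pool.Agent.S821.HypS
import Pool.Agent.Results.MP_5591bc_ag.HyperellipticGrowingDegrees

/-!
# The period conjecture in growing degree for products of hyperelliptic curves at ALL coprime divisors of almost all integers

`f_1, …, f_L ∈ ℚ[X]` are monic of even degree `n = 2g` with distinct real roots, all different from `0`; `C_j(z)` is the curve
`y² = f_j(x) (x - z)` of genus `g`. For almost all integers `m`, for ALL pairwise coprime divisors `s_1, …, s_l`, `t_1, …, t_k` of
`m`, of any size, and all the choices of families `j(1), …, j(k)`, the period conjecture holds for the product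
`C_(j(1))(1/t_1) × ⋯ × C_(j(k))(1/t_k)` for all the relations of degree `≤ δ` over number fields of degree `≤ δ`, if
`t_i ≥ ψ(m)` and `t_i ≥ 2^((δ + 2)^C)`: all these relations hold on the torsor of `{(g_i) ∈ GSp_(2g)^k : equal multipliers}`, so
that they come from the polarisations; the same is true for the relations over the field generated by `2πi`, arbitrary further
constants `w`, the periods of the central fibres `C_j(0)` and the periods of the curves `C_j(1/s_i)` at all the OTHER divisors.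
Here `ψ` tends to infinity as slowly as we like, and there is no bound for the heights of the coefficients; `k`, `l` and the
number of the constants may be any numbers up to a function which tends to infinity. The number of the exceptions `m ≤ N` for
`t_i ≥ y` and the degree `δ` is at most `C (δ + 2)^C y^(-1/(δ + 2)^C) N`, uniformly in `w`; the same holds for the prime factors of
the values of any polynomial.

In particular the relations of bounded degree between the periods of the curves `C(1/p)`, `p` running through the prime factors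
of a typical integer (or of a typical value of a polynomial), can only come from the polarisations and from the bounded primes.

The starting theorems `MP_5591bc_ag.HyperellipticGrowingDegrees` and `MP_290158_ag.HyperellipticGrowingDegrees` count tuples
`(t_1, …, t_N)` in cubes and in short windows. That is not sufficient here: the bound `C T^(N - c)` does not exclude that all the
pairs with `t_1 ≤ t_2^(1 - c)` are exceptions, and the divisors of an integer are of very different sizes.

Proof. One coordinate: among the integers `t ≤ X` at most `C X^(1 - 1/(δ + 2)^C)` have Cayley coordinates of the period matrix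
which are related over given constants, uniformly in the constants (windows of the starting library `Pool.Agent.R351.GD.Hy`).
The large divisors are ordered by size; a related tuple has a first place at which the coordinates are related to the smaller
ones, and the sum of `1 / (t_j ⋯ t_k)` over these minimal tuples is at most `C (δ + 2)^C y^(-c)`. The periods at the small
divisors are constants, their number costs a power of `log y`; a large `s_i` is moved to the `t`, since its period matrix is a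
point of the torsor (`Pool.Agent.S821.Split`, `SplitM`, `Small`, `HypS`).
-/

set_option autoImplicit false

open Filter Polynomial NumberField

namespace Pool.Agent.Results.MP_77d3f5_ag.CoprimeDivisors

open Pool.Agent.N826.IT.Orb (AlmostAll)
open Pool.Agent.S821.Small (LawS PairwiseCoprime growingS)
open Pool.Agent.Results.MP_5591bc_ag.HyperellipticGrowingDegrees (branch period point entries Torsor DegreeGPC)

variable {n L : ℕ}

/-- The constants: the numbers `w`, `2πi` and the periods of all the central fibres `y² = f_j(x) x`, and the periods of the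
fibres `y² = f_j(x) (x - 1 / s_i)`, `j = θ(i)`. -/
noncomputable def consts (a : Fin L → Fin n → ℝ) (m : Fin L → Fin (n + 1)) {q l : ℕ} (w : Fin q → ℂ) (θ : Fin l → Fin L)
    (s : Fin l → ℕ) : (Fin q ⊕ Option (Fin L × Fin n × Fin n)) ⊕ Fin l × Fin n × Fin n → ℂ :=
  Sum.elim (Sum.elim w (point (fun j => Matrix.of (period (branch (a j) (m j) 0))) (2 * Real.pi * Complex.I)))
    (entries fun i => Matrix.of (period (branch (a (θ i)) (m (θ i)) (1 / (s i : ℝ)))))

/-- Every polynomial `P` of degree `≤ δ` with coefficients in a number field of degree `≤ δ` (any such field, no bound on the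
height of the coefficients) with `P(w, X) = 0` vanishes at `(w, x)` for all the points `x` of the torsor with `lam = 2πi`. -/
def HoldsOver {υ : Type} {k : ℕ} (δ : ℕ) (w : υ → ℂ) (F : Fin k → ℚ[X]) (X : Fin k → Matrix (Fin n) (Fin n) ℂ) : Prop :=
  ∀ (K : Type) [Field K] [NumberField K] (φ : K →+* ℂ) (P : MvPolynomial (υ ⊕ Fin k × Fin n × Fin n) K),
    Module.finrank ℚ K ≤ δ → P.totalDegree ≤ δ → (P.map φ).eval (Sum.elim w (entries X)) = 0 →
    ∀ x ∈ Torsor (n := n) F, x.2 = 2 * Real.pi * Complex.I → (P.map φ).eval (Sum.elim w (entries x.1)) = 0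

/-- The statement for the product of the fibres `y² = f_j(x) (x - 1 / t_i)`, `j = θ'(i)`: the `1 / t_i` are in the gaps of `0`, the
point formed by the period matrices and by `2πi` is on the torsor, all the relations of degree `≤ δ` over number fields of
degree `≤ δ` which hold at this point hold on the torsor, and all the relations of degree `≤ δ` over number fields of degree
`≤ δ` between the periods and the constants hold at all the points of the torsor with `lam = 2πi`. -/
def Good (a : Fin L → Fin n → ℝ) (f : Fin L → ℚ[X]) (m : Fin L → Fin (n + 1)) (δ : ℕ) {q l k : ℕ} (w : Fin q → ℂ)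
    (θ : Fin l → Fin L) (s : Fin l → ℕ) (θ' : Fin k → Fin L) (t : Fin k → ℕ) : Prop :=
  (∀ i, StrictMono (branch (a (θ' i)) (m (θ' i)) (1 / (t i : ℝ)))) ∧
    ((fun i => Matrix.of (period (branch (a (θ' i)) (m (θ' i)) (1 / (t i : ℝ))))), (2 * Real.pi * Complex.I : ℂ)) ∈
      Torsor (n := n) (fun i => f (θ' i) * (X - C (1 / (t i : ℚ)))) ∧
    DegreeGPC (fun i => f (θ' i) * (X - C (1 / (t i : ℚ))))
      (point (fun i => Matrix.of (period (branch (a (θ' i)) (m (θ' i)) (1 / (t i : ℝ))))) (2 * Real.pi * Complex.I)) δ δ ∧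
    HoldsOver δ (consts a m w θ s) (fun i => f (θ' i) * (X - C (1 / (t i : ℚ))))
      (fun i => Matrix.of (period (branch (a (θ' i)) (m (θ' i)) (1 / (t i : ℝ)))))

/-- the law, polynomial in the degree -/
theorem law_hyp (hn : Even n) (hL : 0 < L) (a : Fin L → Fin n → ℝ) (f : Fin L → ℚ[X])
    (hf : ∀ j, (f j).map (algebraMap ℚ ℝ) = ∏ i, (X - C (a j i))) (m : Fin L → Fin (n + 1))
    (h0 : ∀ j, StrictMono (branch (a j) (m j) 0)) (l k q : ℕ) :
    ∃ C₀ : ℕ, 1 ≤ C₀ ∧ ∀ (δ : ℕ) (w : Fin q → ℂ), LawS l k (fun s t => ∃ θ θ', ¬ Good a f m δ w θ s θ' t)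
      (1 / ((δ : ℝ) + 2) ^ C₀) (C₀ * ((δ : ℝ) + 2) ^ C₀) := by
  have ha : ∀ j, StrictMono (a j) := fun j => (Pool.Agent.Y118.HP.inGap_of_er (h0 j)).1
  have hg0 : ∀ j, Pool.Agent.Y118.HP.InGap (a j) (m j) 0 := fun j => (Pool.Agent.Y118.HP.inGap_of_er (h0 j)).2
  obtain ⟨n₀, hn₀, h⟩ := Pool.Agent.S821.HypS.law_all hn ha hg0 hf hL
  obtain ⟨C₁, hC₁1, hC₁⟩ := h l k (q + (L * (n * n) + 1))
  refine ⟨2 * C₁, by omega, fun δ w => ?_⟩
  have hcard : Fintype.card (Fin q ⊕ Option (Fin L × Fin n × Fin n)) = q + (L * (n * n) + 1) := by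
    rw [Fintype.card_sum, Fintype.card_option, Fintype.card_prod, Fintype.card_prod, Fintype.card_fin, Fintype.card_fin,
      Fintype.card_fin]
  have h1 := hC₁ (δ * δ + δ + 1) _ hcard
    (Sum.elim w (point (fun j => Matrix.of (period (branch (a j) (m j) 0))) (2 * Real.pi * Complex.I)))
  have hδ : (0 : ℝ) ≤ δ := Nat.cast_nonneg δ
  have hsq : ((δ * δ + δ + 1 : ℕ) : ℝ) + 2 ≤ ((δ : ℝ) + 2) ^ 2 := by
    push_cast
    nlinarith
  have hpow : (((δ * δ + δ + 1 : ℕ) : ℝ) + 2) ^ C₁ ≤ ((δ : ℝ) + 2) ^ (2 * C₁) := by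
    rw [pow_mul]
    exact pow_le_pow_left₀ (by positivity) hsq C₁
  refine (h1.mono_const (one_div_le_one_div_of_le (by positivity) hpow) (mul_le_mul (by
    push_cast
    linarith [(Nat.cast_nonneg C₁ : (0 : ℝ) ≤ C₁)]) hpow (by positivity) (by positivity)) (by positivity)).mono ?_
  rintro s t ⟨θ, θ', hbad⟩
  by_contra hcon
  unfold Pool.Agent.S821.HypS.BadS at hcon
  push Not at hcon
  apply hbad
  exact Pool.Agent.S821.HypS.good_ofU hn (fun i => ha (θ' i)) (fun i => hf (θ' i)) δ _ (Sum.inl (Sum.inr none)) rfl t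
    (fun i => hn₀ (θ' i) (t i) (hcon.1 i)) (hcon.2 θ θ')

/-- **All coprime divisors of almost all integers.** Let `f_1, …, f_L ∈ ℚ[X]`, `L ≥ 1`, be monic of even degree `n` with distinct
real roots `a_j`, all different from `0`; `m_j` is the place of `0` among the roots of `f_j`. There is a function `C(l, k, q)` with
the following properties.

(1) For all `l`, `k`, `q`, `δ`, all `w ∈ ℂ^q` and all `y, N ≥ 1`: for all integers `v ≤ N` but at most
`C (δ + 2)^C y^(-1/(δ + 2)^C) N`, for ALL pairwise coprime divisors `s_1, …, s_l`, `t_1, …, t_k` of `v` with `t_i ≥ y` and all the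
choices of families, the product of the fibres at the `1 / t_i` is `Good` over the periods at the `s_i`.

(2) For every integral polynomial `g ≠ 0` and `l`, `k`, `q` there is `C'` such that for all `δ`, `w`, `y, N ≥ 1`, for all integers
`v ≤ N` but at most `C' (δ + 2)^C y^(-1/(δ + 2)^C) N`, the same is true for all distinct prime factors `s_1, …, s_l`,
`t_1, …, t_k` of `g(v)` with `s_j, t_i ≤ N^(1/(l + k))`, `t_i ≥ y`.

(3) Let `w_0, w_1, …` be any complex numbers. For every function `ψ` which tends to infinity there is a function `B` which tends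
to infinity such that for almost all `v`, for all `l, k, q ≤ B(v)`, `k ≥ 1`, all `δ` and all pairwise coprime divisors
`s_1, …, s_l`, `t_1, …, t_k` of `v` with `t_i ≥ ψ(v)` and `t_i ≥ 2^((δ + 2)^C)`, and all the choices of families, the product of
the fibres at the `1 / t_i` is `Good` over the periods at the `s_i` and the first `q` numbers `w`. -/
theorem result (n L : ℕ) (hn : Even n) (hL : 0 < L) (a : Fin L → Fin n → ℝ) (f : Fin L → ℚ[X])
    (hf : ∀ j, (f j).map (algebraMap ℚ ℝ) = ∏ i, (X - C (a j i))) (m : Fin L → Fin (n + 1))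
    (h0 : ∀ j, StrictMono (branch (a j) (m j) 0)) : ∃ C : ℕ → ℕ → ℕ → ℕ,
    (∀ (l k q δ : ℕ) (w : Fin q → ℂ) (y N : ℕ), 1 ≤ y → 1 ≤ N →
        ({v : ℕ | 1 ≤ v ∧ v ≤ N ∧ ∃ (s : Fin l → ℕ) (t : Fin k → ℕ), (∀ i, s i ∣ v) ∧ (∀ i, t i ∣ v ∧ y ≤ t i) ∧
          PairwiseCoprime s t ∧ ∃ θ θ', ¬ Good a f m δ w θ s θ' t}.ncard : ℝ) ≤
          C l k q * ((δ : ℝ) + 2) ^ C l k q * (y : ℝ) ^ (-(1 / ((δ : ℝ) + 2) ^ C l k q)) * N) ∧
    (∀ g : Polynomial ℤ, g ≠ 0 → ∀ l k q : ℕ, ∃ C' : ℝ, ∀ (δ : ℕ) (w : Fin q → ℂ) (y N : ℕ), 1 ≤ y → 1 ≤ N →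
        ({v : ℕ | 1 ≤ v ∧ v ≤ N ∧ ∃ (s : Fin l → ℕ) (t : Fin k → ℕ),
          (∀ i, (s i).Prime ∧ (s i : ℤ) ∣ g.eval (v : ℤ) ∧ s i ^ (l + k) ≤ N) ∧
          (∀ i, (t i).Prime ∧ (t i : ℤ) ∣ g.eval (v : ℤ) ∧ y ≤ t i ∧ t i ^ (l + k) ≤ N) ∧ PairwiseCoprime s t ∧
          ∃ θ θ', ¬ Good a f m δ w θ s θ' t}.ncard : ℝ) ≤
          C' * ((δ : ℝ) + 2) ^ C l k q * (y : ℝ) ^ (-(1 / ((δ : ℝ) + 2) ^ C l k q)) * N) ∧
    (∀ (w : ℕ → ℂ) (ψ : ℕ → ℕ), Tendsto ψ atTop atTop →
      ∃ B : ℕ → ℕ, Tendsto B atTop atTop ∧ AlmostAll (fun v => ∀ l ≤ B v, ∀ k ≤ B v, 1 ≤ k → ∀ q ≤ B v, ∀ (δ : ℕ)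
        (s : Fin l → ℕ) (t : Fin k → ℕ), (∀ i, s i ∣ v) → (∀ i, t i ∣ v ∧ ψ v ≤ t i ∧ 2 ^ ((δ + 2) ^ C l k q) ≤ t i) →
          PairwiseCoprime s t → ∀ θ θ', Good a f m δ (fun j : Fin q => w j) θ s θ' t)) := by
  choose C hC1 hC using law_hyp hn hL a f hf m h0
  refine ⟨fun l k q => 3 * C l k q, ?_, ?_, ?_⟩
  · intro l k q δ w y N hy _
    have hδ : (1 : ℝ) ≤ (δ : ℝ) + 2 := by linarith [(Nat.cast_nonneg δ : (0 : ℝ) ≤ δ)]
    exact ((hC l k q δ w).mono_const (c' := 1 / ((δ : ℝ) + 2) ^ (3 * C l k q))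
      (C' := ((3 * C l k q : ℕ) : ℝ) * ((δ : ℝ) + 2) ^ (3 * C l k q))
      (one_div_le_one_div_of_le (by positivity) (pow_le_pow_right₀ hδ (by omega)))
      (mul_le_mul (by exact_mod_cast (by omega : C l k q ≤ 3 * C l k q))
        (pow_le_pow_right₀ hδ (by omega)) (by positivity) (by positivity)) (by positivity)).nat hy
  · intro g hg l k q
    refine ⟨2 * C l k q * ((g.natDegree + g.leadingCoeff.natAbs : ℕ) : ℝ) ^ (l + k), fun δ w y N hy hN => ?_⟩
    have hδ : (1 : ℝ) ≤ (δ : ℝ) + 2 := by linarith [(Nat.cast_nonneg δ : (0 : ℝ) ≤ δ)]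
    have h2 := (hC l k q δ w).mono_const (c' := 1 / ((δ : ℝ) + 2) ^ (3 * C l k q))
      (C' := ((C l k q : ℕ) : ℝ) * ((δ : ℝ) + 2) ^ (3 * C l k q))
      (one_div_le_one_div_of_le (by positivity) (pow_le_pow_right₀ hδ (by omega)))
      (mul_le_mul_of_nonneg_left (pow_le_pow_right₀ hδ (by omega)) (by positivity)) (by positivity)
    exact (h2.poly (by positivity) g hg hy hN).trans (le_of_eq (by ring))
  · intro w ψ hψ
    obtain ⟨K, hK, h⟩ := Pool.Agent.S821.Split.growth_fin (ι := (ℕ × ℕ) × ℕ)
      (fun K => (Finset.range (K + 1) ×ˢ Finset.range (K + 1)) ×ˢ Finset.range (K + 1))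
      (fun i j hij => Finset.product_subset_product (Finset.product_subset_product
        (Finset.range_mono (by omega)) (Finset.range_mono (by omega))) (Finset.range_mono (by omega)))
      (fun b v => 1 ≤ b.1.2 → ∀ (δ : ℕ) (s : Fin b.1.1 → ℕ) (t : Fin b.1.2 → ℕ), (∀ i, s i ∣ v) →
          (∀ i, t i ∣ v ∧ ψ v ≤ t i ∧ 2 ^ ((δ + 2) ^ (3 * C b.1.1 b.1.2 b.2)) ≤ t i) →
          PairwiseCoprime s t → ¬ ∃ θ θ', ¬ Good a f m δ (fun j : Fin b.2 => w j) θ s θ' t)
      (fun b => by
        by_cases hb : 1 ≤ b.1.2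
        · exact Pool.Agent.N826.IT.Orb.almostAll_mono (growingS hb (hC1 _ _ _) (a := C b.1.1 b.1.2 b.2) (by positivity)
            (fun δ s t => ∃ θ θ', ¬ Good a f m δ (fun j : Fin b.2 => w j) θ s θ' t)
            (fun δ => hC b.1.1 b.1.2 b.2 δ _) ψ hψ) fun v hv _ => hv
        · exact Pool.Agent.N826.IT.Orb.almostAll_true fun v h => absurd h hb)
    refine ⟨K, hK, Pool.Agent.N826.IT.Orb.almostAll_mono h fun v hv l hl k hk hk1 q hq δ s t hs ht hst θ θ' => ?_⟩
    by_contra hbad
    exact hv ((l, k), q) (by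
      rw [Finset.mem_product, Finset.mem_product]
      exact ⟨⟨Finset.mem_range.2 (Nat.lt_succ_of_le hl), Finset.mem_range.2 (Nat.lt_succ_of_le hk)⟩,
        Finset.mem_range.2 (Nat.lt_succ_of_le hq)⟩) hk1 δ s t hs ht hst ⟨θ, θ', hbad⟩

end Pool.Agent.Results.MP_77d3f5_ag.CoprimeDivisors
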