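import Pool.Agent.U400.PN.Pf

set_option autoImplicit false

/-!
# The periods of abelian varieties with real multiplication split off from the periods of every
# motive of smaller rank

Let `A` be an abelian variety over the field `ℚ̄` of algebraic numbers, let `M` be a motive in the tensor
category generated by `h^1(A)` and the Tate motives, with the matrix of periods `P`, and let `N` be an
**arbitrary** motive over `ℚ̄` of rank `d`, pure or mixed (for example `H^q(Z)` for any variety `Z`), with
the matrix of periods `Ψ`. Nothing is known or assumed about the periods of `N`: in the theorem `Ψ` is an
arbitrary invertible matrix of complex numbers.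

Let `G ⊆ GL(H_B(M) ⊕ H_B(N))` be *any* algebraic group over `ℚ` such that the comparison isomorphism of
`M ⊕ N` is a point of a torsor of `G` which is defined over `ℚ̄`: `(P ⊕ Ψ) T ∈ G(ℂ)` for a matrix `T` with
algebraic entries. The period conjecture for `X = A ^ m × Z` implies that every such `G` contains the
motivic Galois group `G_mot(M ⊕ N)` (otherwise the intersection of the two groups has smaller
dimension, and the closure `Z_X` is smaller than the torsor `Ω^mot_X`). We ask when `G` contains the
derived group `MT(M)^der` of the Mumford-Tate group of `M` as the subgroup `MT(M)^der × 1`, which acts
trivially on `N` (`SplitsOff`): this means that, up to the Tate twist and the centre, the periods of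
`M` are independent of the periods of `N`. By the period conjecture this should be true unless a simple
factor of the Lie algebra of `MT(M)` occurs in the motivic Galois group of `N`.

Let `𝔤` be the Lie algebra of the endomorphisms of `H_1(A, ℚ)` which annihilate all classes that are
Hodge classes and de Rham-Betti classes; it is the Lie algebra of the Hodge group of `A`.

**The hypothesis on `A`** (`SumOfPlanes`). `H_1(A, ℂ)` is the direct sum of *planes*: simple `𝔤`-modules of
dimension two, such that every two of them satisfy one of the conditions:

* `SameColour`: `[𝔤, 𝔤]` acts on the two planes by equivalent representations;
* `Linked`: there are planes `W i'` and `W j'` of the same colours, such that every element of `𝔤` has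
  the same trace on `W i'` and on `W j'`;
* `Separated`: for some automorphism `s` of the field `ℂ` the representations of `[𝔤, 𝔤]` which are
  conjugate to the two planes belong to real places of different kinds: to `sl(2, ℝ)` and to `su(2)`.

**Theorem.** Let `G` be an algebraic group over `ℚ` with a torsor over `ℚ̄` which contains `P ⊕ Ψ`.

1. Either `G` contains `MT(M)^der × 1`, or a quotient of `[𝔤, 𝔤]` occurs in `N` (`Occurs`): for an ideal
   `I ≠ [𝔤, 𝔤]`, the Lie algebra `[𝔤, 𝔤] / I` is a quotient of a Lie algebra of rational matrices of size
   `d` and trace zero which is contained in the image of the Lie algebra of `G` in `gl_d(ℚ)`.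
2. If all simple factors of `[𝔤, 𝔤]` over `ℚ` have at least `e` colours (`MinColours`) and `d < 2 e`, then
   `G` contains `MT(M)^der × 1`.

The bound in part 2 cannot be improved. For example let `A` be an abelian variety of dimension `e` whose
endomorphism algebra is a totally real field of degree `e`. Then there are `e` colours, and `h^1(A)` has
the rank `2 e`: **the motives in the tensor category of `h^1(A)` split off from every motive whose rank is
smaller than the rank of `h^1(A)`**. For `N = h^1(A)`, of rank `2 e`, the group
`G = G_mot(h^1(A) ⊕ h^1(A))` does not contain `MT(A)^der × 1`.

**Examples of `A`** (explanations, not part of the statement). All abelian varieties which are isogenous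
to products of abelian varieties of the following kinds (repeated factors are allowed):

* elliptic curves without complex multiplication (one colour);
* abelian varieties of dimension `e` whose endomorphism algebra is a totally real field `F` of degree `e`
  (`[𝔤, 𝔤] = sl_2(F)`; there are `e` colours);
* abelian varieties of dimension `2 e` whose endomorphism algebra is a totally indefinite quaternion
  algebra over such a field (`e` colours), for example abelian surfaces with quaternion multiplication.

Here `𝔤` has the trace zero on all planes, so that every two of them are linked. The simple factors of
`[𝔤, 𝔤]` are the Lie algebras of the nonisogenous simple factors of `A`, so if all fields have degree at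
least `e`, then `d < 2 e` is sufficient. Other examples are abelian varieties of dimension `[K : ℚ]` whose
endomorphism algebra is a CM field `K`, if the Hodge group is as large as possible and the signatures are
`(1, 1)` at the real places in a set `S`, and `(2, 0)` or `(0, 2)` at the other ones, if `S` is not the
preimage of a set of places of a proper subfield of the real subfield `F` of `K`: then every two places
are linked or separated, and there are `[F : ℚ]` colours.

If no nonzero quotient of `[𝔤, 𝔤]` is a quotient of a subalgebra of the Lie algebra of the motivic Galois
group of `N`, then one can take for `G` a group whose image in `GL_d` is contained in this motivic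
Galois group, and the second case of part 1 is excluded. For example for motives `N` with a solvable
motivic Galois group: all mixed Tate motives, and all iterated extensions of motives of abelian
varieties with complex multiplication.

## What is new

For `N = 0` this is contained in `PolydiscMotives` (MP_caab05_ag). Here `N` is arbitrary: the other
summand has no description at all. In the library there are `SplitOff` (MP_bf54cf_ag; de Rham-Betti classes
on the product of abelian varieties of spin type and of an arbitrary structure, in place of all groups
`G`; its bounds are for colours of rank at least six, and here the colours are of type `A_1`),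
`FibreProducts` (MP_5d33ca_ag; elliptic curves and Chow motives, under hypotheses on the second
factor), and a theorem on the sum of a fixed motive and almost all members of a family, in bounded
degree (SumWithFixedMotive, an earlier hand-in on this problem, replaced by this one). For
the powers of one elliptic curve without complex multiplication the de Rham-Betti group is known
(André, Bost and Charles), and part 1 follows with Goursat's lemma. We do not know of such a result in
the literature for the other abelian varieties, in particular not of the optimal bound in part 2.

Nothing is assumed about periods: `AbVar` is the description of an abelian variety over `ℚ̄` by theta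
functions (see `Pool/Agent/Y102/AVDefs.lean`, where it is explained why every abelian variety has it),
and the theorem of Schneider and Lang is proved in this repository.

## Motives

As `h^1(A)` is dual to `h^1(A)(1)`, the motive `M` is a direct factor of a sum of motives
`h^1(A) ^ {⊗ r i} (w i)`. Its Betti realization is a space of families of multilinear forms with
rational values, in `r i` variables in `H_1(A, ℚ)`, with a basis `B`. It is stable under `𝔤` (`InLie`), and
under the weights. The de Rham realization has a basis which consists of combinations of products of
elements of `H^1_dR(A / ℚ̄)` with algebraic coefficients. The matrix `P` of the periods expresses it in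
terms of the basis `(2 π i) ^ (w i) B` of the Betti realization (`IsMotive`). The matrix `N` of
`IsComplexStructure` is the action of `i` on `M`, the generator of the Lie algebra of the circle in the
Hodge structure of `M`, and `hodgeLie N` is the Lie algebra of the Hodge group of `M`; its derived
algebra is the Lie algebra of `MT(M)^der`.

## Proof

Let `D` be a derivation of `ℂ` over `ℚ̄`. The logarithmic derivative of the matrix of the periods of
`A`, and of `P ⊕ Ψ`, in the sense of differential algebra, is in the complex span of the Lie algebra
`pp` of the pairs `(X, K)`, `X ∈ 𝔤` up to the weights, `K ∈ gl_d(ℚ)`, such that the matrix of `X` on `M` and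
`K` give an element of the Lie algebra of `G` (`log_mem'`). By the theorem of Schneider and Lang its image
`𝔮` under the first projection is *full*: it acts semisimply on `H_1(A, ℚ)`, with the same commutant
as `𝔤` (`qP_full`). By `U400.PD.det_of` and `der_of_det` this implies `[𝔮, 𝔮] = [𝔤, 𝔤]`. The elements `X`
with `(X, 0) ∈ [pp, pp]` form an ideal `I` of `[𝔤, 𝔤]` (`KI_ideal`). If it is all of `[𝔤, 𝔤]`, then `M` splits
off. Otherwise `K ↦ X` is a well-defined homomorphism from the image of `[pp, pp]` in `gl_d(ℚ)` onto
`[𝔤, 𝔤] / I` (`quot'`), and over `ℂ` we get a Lie algebra `L ⊆ gl_d(ℂ)` with a surjective homomorphism to
`sl_2(ℂ) ^ e`, given by the action on `e` planes of different colours on which `I` is zero (`surj_fam`).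

Such an algebra exists only for `2 e ≤ d` (`rank_bound`): let `L` be minimal. For `y` in the kernel the
elements of `L` which are killed by a power of `ad y` form a subalgebra with the same image, so this is
`L`, and `L` stabilizes the generalized eigenspaces of `y`; the traces of the elements of `L` on
them are zero as `L` is minimal, so `y` is nilpotent (`nil_of_min`). By Engel's theorem the kernel
acts trivially on the simple subquotients `W` of `ℂ ^ d`, so `sl_2(ℂ) ^ e` acts on them. If the set
`J` of the factors which act on `W` nontrivially has `j` elements, then the dimension of `W` is at least
`2 ^ j ≥ 2 j` (`pow_le`, `irr_bound`). A factor which acts trivially on all subquotients would be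
nilpotent. So `d ≥ 2 e`. (This proof does not use the theorem of Levi, which is not in Mathlib.)
-/

open Module Matrix Pool.Agent.Y102 Pool.Agent.W516.DR Pool.Agent.U400.PN.Any

noncomputable section

namespace Pool.Agent.Results.MP_77d3f5_ag.SplitsFromAnyMotive

/-- **Theorem.** Let `A` be an abelian variety over `ℚ̄` whose homology is a sum of planes. Let `M` be a
motive generated by `h^1(A)`, with the periods `P`, and let `Ψ` be the matrix of the periods of an
arbitrary motive of rank `d` (an arbitrary invertible complex matrix). Let `G` be an algebraic group over
`ℚ` with a torsor over `ℚ̄` which contains `P ⊕ Ψ`.

1. Either `G` contains the derived group of the Mumford-Tate group of `M`, acting trivially on the other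
   motive, or a nonzero quotient of `[𝔤, 𝔤]` occurs in the other motive: it is a quotient of a Lie algebra
   of rational matrices of size `d` and trace zero in the image of the Lie algebra of `G`.
2. The first case holds if all simple factors of `[𝔤, 𝔤]` over `ℚ` have at least `e` colours and
   `d < 2 e`. -/
theorem result (g s n k d : ℕ) (A : AbVar g)
    (PW : Fin k → Matrix (Fin (2 * g)) (Fin 2) ℂ) (QW : Fin k → Matrix (Fin 2) (Fin (2 * g)) ℂ)
    (hA : SumOfPlanes A PW QW) (r : Fin s → ℕ) (w : Fin s → ℤ) (B : Fin n → Tensors A r) (P : Matrix (Fin n) (Fin n) ℂ)
    (hM : IsMotive w B P) (N : Matrix (Fin n) (Fin n) ℝ) (hN : IsComplexStructure B N)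
    (Ψ : Matrix (Fin d) (Fin d) ℂ) (hΨ : Ψ.det ≠ 0)
    (G : Subgroup (GL (Fin n ⊕ Fin d) ℂ)) (hG : IsAlgebraicSubgroup G)
    (hP : ContainsPeriods P Ψ G) :
    (SplitsOff N G ∨ Occurs n (derivedLie A) G) ∧
      ∀ e : ℕ, MinColours A PW QW e → d < 2 * e → SplitsOff N G :=
  Pool.Agent.U400.PN.Any.main hA hM hN hΨ hG hP

end Pool.Agent.Results.MP_77d3f5_ag.SplitsFromAnyMotive
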